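import Pool.Agent.Y179.CG.Many

/-!
# Subgroups of free groups with prescribed cogrowth series

The question is whether a subgroup of a free group with rational cogrowth series must be finitely
generated. We show that almost nothing can be read off from the cogrowth series: for all integral
power series `U`, `E` with small coefficients and every `N ≥ 10` the series
`(1 - 100 X - E) / (1 - 100 X - E - 2 X ^ N U)` is the cogrowth series of continuum many pairwise
inequivalent subgroups of `F_m` which are not finitely generated.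
-/

set_option autoImplicit false

namespace Pool.Agent.Results.MP_8eb3db_al.PrescribedCogrowth

open PowerSeries

/-- The cogrowth series of a subgroup `H` of the free group `F_m`: the coefficient of `X^n` is the
number of `h ∈ H` of length `n` (`FreeGroup.norm` is the length of the freely reduced word). -/
noncomputable def cogrowth {m : ℕ} (H : Subgroup (FreeGroup (Fin m))) : PowerSeries ℚ :=
  PowerSeries.mk fun n => (Nat.card {h : FreeGroup (Fin m) // h ∈ H ∧ h.norm = n} : ℚ)

/-- A power series over `ℚ` is rational: `Q * f = P` for polynomials `P`, `Q` with `Q ≠ 0`. -/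
def IsRational (f : PowerSeries ℚ) : Prop :=
  ∃ P Q : Polynomial ℚ, Q ≠ 0 ∧ (Q : PowerSeries ℚ) * f = (P : PowerSeries ℚ)

/-- An integral power series as a power series over `ℚ`. -/
noncomputable def toQ (f : PowerSeries ℤ) : PowerSeries ℚ := PowerSeries.map (Int.castRingHom ℚ) f

theorem coe_ne {Q : Polynomial ℚ} (h : Q ≠ 0) : (Q : PowerSeries ℚ) ≠ 0 := by
  rwa [Ne, Polynomial.coe_eq_zero_iff]

theorem of_coe_ne {Q : Polynomial ℚ} (h : (Q : PowerSeries ℚ) ≠ 0) : Q ≠ 0 := by
  rwa [Ne, Polynomial.coe_eq_zero_iff] at h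

theorem rational_iff {N : ℕ} {e u g : PowerSeries ℚ} (he0 : constantCoeff e = 0)
    (he : IsRational e) (h : (1 - 100 * X - e - 2 * X ^ N * u) * g = 1 - 100 * X - e) :
    IsRational g ↔ IsRational u := by
  obtain ⟨PE, QE, hQE, hE⟩ := he
  set D' : Polynomial ℚ := QE * (1 - 100 * Polynomial.X) - PE with hD'
  have c100 : ((100 : Polynomial ℚ) : PowerSeries ℚ) = 100 := by
    have : (100 : Polynomial ℚ) = Polynomial.C 100 := (map_ofNat _ 100).symm
    rw [this, Polynomial.coe_C]
    exact map_ofNat _ 100
  have c2 : ((2 : Polynomial ℚ) : PowerSeries ℚ) = 2 := by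
    have : (2 : Polynomial ℚ) = Polynomial.C 2 := (map_ofNat _ 2).symm
    rw [this, Polynomial.coe_C]
    exact map_ofNat _ 2
  have eD : (D' : PowerSeries ℚ) = (QE : PowerSeries ℚ) * (1 - 100 * X - e) := by
    rw [hD', Polynomial.coe_sub, Polynomial.coe_mul, Polynomial.coe_sub, Polynomial.coe_one,
      Polynomial.coe_mul, c100, Polynomial.coe_X, ← hE]
    ring
  have hD0 : (1 - 100 * X - e : PowerSeries ℚ) ≠ 0 := by
    intro h0
    have := congrArg constantCoeff h0
    simp [he0] at this
  have hD'0 : (D' : PowerSeries ℚ) ≠ 0 := by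
    rw [eD]
    exact mul_ne_zero (coe_ne hQE) hD0
  have hg0 : g ≠ 0 := by
    rintro rfl
    rw [mul_zero] at h
    exact hD0 h.symm
  constructor
  · rintro ⟨P, Q, hQ, hP⟩
    have hP0 : (P : PowerSeries ℚ) ≠ 0 := by
      rw [← hP]
      exact mul_ne_zero (coe_ne hQ) hg0
    refine ⟨D' * P - D' * Q, 2 * Polynomial.X ^ N * QE * P, ?_, ?_⟩
    · apply of_coe_ne
      rw [Polynomial.coe_mul, Polynomial.coe_mul, Polynomial.coe_mul, Polynomial.coe_pow,
        Polynomial.coe_X, c2]
      refine mul_ne_zero (mul_ne_zero (mul_ne_zero ?_ (pow_ne_zero _ X_ne_zero)) (coe_ne hQE)) hP0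
      intro h0
      have h1 : constantCoeff (2 : PowerSeries ℚ) = 2 := map_ofNat _ 2
      rw [h0, map_zero] at h1
      norm_num at h1
    · rw [Polynomial.coe_mul, Polynomial.coe_mul, Polynomial.coe_mul, Polynomial.coe_pow,
        Polynomial.coe_X, c2, Polynomial.coe_sub, Polynomial.coe_mul, Polynomial.coe_mul, eD, ← hP]
      linear_combination (-(QE : PowerSeries ℚ) * Q) * h
  · rintro ⟨P, Q, hQ, hP⟩
    have hmul : ((Q : PowerSeries ℚ) * (D' : PowerSeries ℚ) - 2 * X ^ N * (QE : PowerSeries ℚ) *
        (P : PowerSeries ℚ)) * g = (Q : PowerSeries ℚ) * (D' : PowerSeries ℚ) := by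
      rw [eD, ← hP]
      linear_combination ((QE : PowerSeries ℚ) * Q) * h
    refine ⟨Q * D', Q * D' - 2 * Polynomial.X ^ N * QE * P, ?_, ?_⟩
    · rintro h0
      have h1 := congrArg (fun q : Polynomial ℚ => (q : PowerSeries ℚ)) h0
      simp only [Polynomial.coe_sub, Polynomial.coe_mul, Polynomial.coe_pow, Polynomial.coe_X, c2,
        Polynomial.coe_zero] at h1
      rw [h1, zero_mul] at hmul
      exact mul_ne_zero (coe_ne hQ) hD'0 hmul.symm
    · rw [Polynomial.coe_sub, Polynomial.coe_mul, Polynomial.coe_mul, Polynomial.coe_mul,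
        Polynomial.coe_mul, Polynomial.coe_pow, Polynomial.coe_X, c2]
      exact hmul

/-- **The cogrowth series of subgroups which are not finitely generated can be prescribed.**
Let `m ≥ 1051021` and `N ≥ 10`, and let `U`, `E` be integral power series, `U = 1 + ⋯` with
`|U_j| ≤ 2 ^ j`, and `E = O(X ^ 4)` with `|E_j| ≤ 2 ^ j / 2`. There is a family of subgroups `H ε`
of the free group `F_m`, indexed by the infinite binary sequences `ε` (so of the cardinality of the
continuum), such that no `H ε` is finitely generated, no automorphism of `F_m` maps a member of the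
family to another one, and all of them have the cogrowth series
`(1 - 100 X - E) / (1 - 100 X - E - 2 X ^ N U)`. If `E` is rational (for instance `E = 0`), this
series is rational if and only if `U` is rational. In particular the answer to the question is no. -/
theorem result :
    (∀ m N : ℕ, 1051021 ≤ m → 10 ≤ N → ∀ U E : PowerSeries ℤ,
      PowerSeries.coeff 0 U = 1 → (∀ j, |PowerSeries.coeff j U| ≤ 2 ^ j) →
      (∀ j < 4, PowerSeries.coeff j E = 0) → (∀ j, 2 * |PowerSeries.coeff j E| ≤ 2 ^ j) →
      ∃ H : (ℕ → Bool) → Subgroup (FreeGroup (Fin m)),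
        (∀ ε, ¬ (H ε).FG) ∧
        (∀ ε, (1 - 100 * PowerSeries.X - toQ E - 2 * PowerSeries.X ^ N * toQ U) * cogrowth (H ε)
          = 1 - 100 * PowerSeries.X - toQ E) ∧
        (∀ ε ε', ε ≠ ε' → ∀ φ : FreeGroup (Fin m) ≃* FreeGroup (Fin m),
          (H ε).map φ.toMonoidHom ≠ H ε') ∧
        (IsRational (toQ E) → ∀ ε, (IsRational (cogrowth (H ε)) ↔ IsRational (toQ U)))) ∧
    ¬ (∀ m : ℕ, 1 ≤ m → ∀ H : Subgroup (FreeGroup (Fin m)), IsRational (cogrowth H) ↔ H.FG) := by
  have main : ∀ m N : ℕ, 1051021 ≤ m → 10 ≤ N → ∀ U E : PowerSeries ℤ,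
      PowerSeries.coeff 0 U = 1 → (∀ j, |PowerSeries.coeff j U| ≤ 2 ^ j) →
      (∀ j < 4, PowerSeries.coeff j E = 0) → (∀ j, 2 * |PowerSeries.coeff j E| ≤ 2 ^ j) →
      ∃ H : (ℕ → Bool) → Subgroup (FreeGroup (Fin m)),
        (∀ ε, ¬ (H ε).FG) ∧
        (∀ ε, (1 - 100 * PowerSeries.X - toQ E - 2 * PowerSeries.X ^ N * toQ U) * cogrowth (H ε)
          = 1 - 100 * PowerSeries.X - toQ E) ∧
        (∀ ε ε', ε ≠ ε' → ∀ φ : FreeGroup (Fin m) ≃* FreeGroup (Fin m),
          (H ε).map φ.toMonoidHom ≠ H ε') ∧
        (IsRational (toQ E) → ∀ ε, (IsRational (cogrowth (H ε)) ↔ IsRational (toQ U))) := by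
    intro m N hm hN U E hU0 hU hE0 hE
    have hinv : H749.Cog.Inv N U E := by
      refine ⟨hN, hU0, ?_, hE0, ?_⟩
      · intro j
        rw [one_mul]
        exact_mod_cast hU j
      · intro j
        have h1 : 2 * |((PowerSeries.coeff j E : ℤ) : ℝ)| ≤ 2 ^ j := by exact_mod_cast hE j
        have h2 : (4 : ℝ) / 2 ^ N ≤ 1 / 2 := by
          rw [div_le_div_iff₀ (by positivity) (by norm_num)]
          have : (2 : ℝ) ^ 10 ≤ 2 ^ N := pow_le_pow_right₀ (by norm_num) hN
          norm_num at this ⊢
          linarith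
        have h3 : (0 : ℝ) < 2 ^ j := by positivity
        nlinarith
    obtain ⟨H0, hinj, hfg, hser⟩ := Pool.Agent.Y179.CG.exists_many (P := m - 30613) (Q := 10204)
      (by omega) (le_refl _) N U E hinv
    have hc : Nat.card (Fin (m - 30613 + 1) ⊕ (Fin 3 × Fin 10204)) = m := by
      simp
      omega
    let e := Finite.equivFinOfCardEq hc
    let φ0 := FreeGroup.freeGroupCongr e
    let H1 : (ℕ → Bool) → Subgroup (FreeGroup (Fin m)) := fun ε => (H0 ε).map φ0.toMonoidHom
    have hinj1 : Function.Injective H1 := by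
      intro ε ε' h
      exact hinj (Subgroup.map_injective φ0.injective h)
    have hser1 : ∀ ε, (1 - 100 * PowerSeries.X - toQ E - 2 * PowerSeries.X ^ N * toQ U) *
        cogrowth (H1 ε) = 1 - 100 * PowerSeries.X - toQ E := by
      intro ε
      have hcard := (Pool.Agent.Y179.CG.transport_map e (H0 ε) (hfg ε)).2
      have e1 : cogrowth (H1 ε) = toQ (H749.Cog.gf
          (H0 ε : Set (FreeGroup (Fin (m - 30613 + 1) ⊕ (Fin 3 × Fin 10204))))) := by
        ext n
        have := hcard n
        rw [cogrowth, PowerSeries.coeff_mk, toQ, PowerSeries.coeff_map, ← H749.Cog.card_eq_gf,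
          this]
        simp
      have h2 := congrArg toQ (hser ε)
      have d1 : PowerSeries.map (Int.castRingHom ℚ) 2 = 2 := map_ofNat _ 2
      have d2 : PowerSeries.map (Int.castRingHom ℚ) (PowerSeries.C 100) = 100 := by
        have : (PowerSeries.C (100 : ℤ) : PowerSeries ℤ) = 100 := map_ofNat _ 100
        rw [this]
        exact map_ofNat _ 100
      rw [e1]
      unfold toQ at h2 ⊢
      unfold H749.Cog.Vd at h2
      simpa only [map_mul, map_sub, map_one, map_pow, PowerSeries.map_X, d1, d2] using h2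
    -- pairwise inequivalent members
    let r : Setoid (Subgroup (FreeGroup (Fin m))) :=
      { r := fun A B => ∃ φ : FreeGroup (Fin m) ≃* FreeGroup (Fin m), A.map φ.toMonoidHom = B
        iseqv :=
          { refl := fun A => ⟨MulEquiv.refl _, by
              ext x
              simp⟩
            symm := by
              rintro A B ⟨φ, rfl⟩
              refine ⟨φ.symm, ?_⟩
              rw [Subgroup.map_map]
              ext x
              simp
            trans := by
              rintro A B C ⟨φ, rfl⟩ ⟨ψ, rfl⟩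
              refine ⟨φ.trans ψ, ?_⟩
              rw [Subgroup.map_map]
              rfl } }
    have hr : ∀ A, {B | r.r A B}.Countable := by
      intro A
      have := Pool.Agent.Y179.CG.countable_aut m
      have h1 : {B | r.r A B} ⊆ Set.range
          (fun φ : FreeGroup (Fin m) ≃* FreeGroup (Fin m) => A.map φ.toMonoidHom) := by
        rintro B ⟨φ, hφ⟩
        exact ⟨φ, hφ⟩
      exact (Set.countable_range _).mono h1
    obtain ⟨g, hg⟩ := Pool.Agent.Y179.CG.exists_inequivalent r hr H1 hinj1
    refine ⟨fun ε => H1 (g ε), ?_, fun ε => hser1 (g ε), ?_, ?_⟩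
    · intro ε
      exact (Pool.Agent.Y179.CG.transport_map e (H0 (g ε)) (hfg (g ε))).1
    · intro ε ε' hne φ h
      exact hg ε ε' hne ⟨φ, h⟩
    · intro hEr ε
      refine rational_iff ?_ hEr (hser1 (g ε))
      rw [← PowerSeries.coeff_zero_eq_constantCoeff_apply, toQ, PowerSeries.coeff_map,
        hE0 0 (by norm_num), map_zero]
  refine ⟨main, ?_⟩
  intro h
  have hz : toQ 0 = 0 := map_zero _
  have ho : toQ 1 = 1 := map_one _
  obtain ⟨H, hH, -, -, hR⟩ := main 1051021 10 (le_refl _) (le_refl _) 1 0 (by simp)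
    (by
      intro j
      rw [PowerSeries.coeff_one]
      split_ifs with hj
      · subst hj; simp
      · simp) (by simp) (by simp)
  have h0 : IsRational (toQ 0) := ⟨0, 1, one_ne_zero, by rw [hz]; simp⟩
  have h1 : IsRational (toQ 1) := ⟨1, 1, one_ne_zero, by rw [ho]; simp⟩
  exact hH (fun _ => true) ((h 1051021 (by norm_num) _).1 ((hR h0 _).2 h1))

end Pool.Agent.Results.MP_8eb3db_al.PrescribedCogrowth
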